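import Pool.Agent.N983.RT.ALG
import Pool.Agent.N983.RT.EST
import Pool.Agent.N983.RT.SHL
import Pool.Agent.N983.RT.UNQ
import Pool.Agent.N983.RT.CS
import Pool.Agent.N983.RT.LAT
import Pool.Agent.N983.RT.BCD
import Pool.Agent.N983.RT.BCS2
import Pool.Agent.N983.RT.PNT
import Pool.Agent.N983.RT.Asm2
import Pool.Agent.U136.RT.CMP
import Pool.Agent.U178.RT.ODE
import Pool.Agent.U261.RT.IND
import Pool.Agent.U396.RT.UNI2
import Pool.Agent.U448.RT.SUM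
import Pool.Agent.U527.RT.APR2
import Pool.Agent.U652.RT.HOE2
import Pool.Agent.U671.RT.TAIL
import Pool.Agent.U884.RT.DET
import Pool.Agent.U884.RT.ESY
import Pool.Agent.U898.RT.DIG
import Pool.Agent.U913.RT.RHS

set_option autoImplicit false

/-!
Project RT (blueprint of helper983, Pool/Agent/N983/RT, in the starting library): the parts are
put together. Parts of this run: ODE (helper178), CMP (helper136), APR2 (helper527), DET and ESY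
(helper884), DIG (helper898), HOE2 (helper652), IND (helper261), RHS (helper913), SUM (helper448),
TAIL (helper671), UNI2 (helper396).
-/

namespace Pool.Agent.U136.RT

open MeasureTheory ProbabilityTheory Pool.Agent.N983.RT

theorem t_EST' : S_EST := t_EST t_SHL

theorem t_APR : S_APR := fun hSUM hALG hEST g ν α κ hg hν hκ hα hTB =>
  Pool.Agent.U527.RT.t_APR2 hSUM hALG g ν α κ hg hν hκ hα (asm2_HE_TB hEST g κ hκ hTB)

/-- the deterministic criterion -/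
theorem crit (g : Wv → Wv → Wv → ℝ) (ν α κ : ℝ) (hg : Arr g) (hν : 0 < ν) (hκ : -1 < κ)
    (hα : (1 + κ) / 2 < α) (hHE : HE g κ) (S : Set Wv) (hS : ∀ k l m, m ∉ S → g k l m = 0) :
    GWP g ν α S :=
  asm2_crit Pool.Agent.U448.RT.t_SUM t_ALG Pool.Agent.U527.RT.t_APR2 Pool.Agent.U178.RT.t_ODE
    Pool.Agent.U913.RT.t_RHS Pool.Agent.U136.RT.t_CMP t_UNQ g ν α κ hg hν hκ hα hHE S hS

/-- random coefficients of the triads -/
theorem rand (Ω : Type) [MeasurableSpace Ω] (μ : Measure Ω) [IsProbabilityMeasure μ]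
    (X : Sym2 (Finset Wv) → Ω → ℝ) (hX : ∀ c, Measurable (X c)) (hi : iIndepFun X μ)
    (hX1 : ∀ c, ∀ᵐ ω ∂μ, |X c ω| ≤ 1) (B β : ℝ)
    (hm : ∀ k l m : Wv, k ≠ 0 → l ≠ 0 → m ≠ 0 → k + l + m = 0 →
      |∫ ω, sgn X ω k l m ∂μ| * mn k l m ^ (5 / 4 : ℝ) ≤ B * mx k l m ^ β) :
    ∀ᵐ ω ∂μ, ∀ ν α : ℝ, 0 < ν → max (1 / 2) β < α → GWP (sgn X ω) ν α Set.univ :=
  asm2_rand Pool.Agent.U448.RT.t_SUM t_ALG t_EST' Pool.Agent.U527.RT.t_APR2 Pool.Agent.U178.RT.t_ODE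
    Pool.Agent.U913.RT.t_RHS Pool.Agent.U136.RT.t_CMP t_UNQ Pool.Agent.U396.RT.t_UNI2
    Pool.Agent.U652.RT.t_HOE2 Pool.Agent.U898.RT.t_DIG t_BCS2 t_PNT Ω μ X hX hi hX1 B β hm

/-- random sets of wave vectors -/
theorem modes (a : ℝ) (ha : 0 ≤ a)
    (Ω : Type) [MeasurableSpace Ω] (μ : Measure Ω) [IsProbabilityMeasure μ]
    (Y : Sym2 Wv → Ω → ℝ) (hY : ∀ c, Measurable (Y c)) (hi : iIndepFun Y μ)
    (hs : ∀ k, k ≠ 0 → μ {ω | Y s(k, -k) ω = 1} ≤ ENNReal.ofReal (nsq k ^ (-a / 2))) :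
    ∀ᵐ ω ∂μ, ∀ ν α : ℝ, 0 < ν → max (1 / 2) (5 / 4 - 3 * a / 4) < α →
      GWP (dec (kept Y ω)) ν α (kept Y ω) :=
  asm_dec Pool.Agent.U448.RT.t_SUM t_ALG t_EST' t_APR Pool.Agent.U178.RT.t_ODE
    Pool.Agent.U913.RT.t_RHS Pool.Agent.U136.RT.t_CMP t_UNQ t_CS Pool.Agent.U261.RT.t_IND
    U884RT.t_ESY Pool.Agent.U671.RT.t_TAIL t_LAT t_BCD a ha Ω μ Y hY hi hs

/-- deterministic sets of wave vectors -/
theorem sets (K : Set Wv) (B γ : ℝ) (hK : ∀ k ∈ K, -k ∈ K) (h0 : (0 : Wv) ∉ K) (hB : 0 ≤ B)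
    (hγ : 0 ≤ γ) (hc : ∀ R : ℕ, 1 ≤ R → ∀ p ∈ cub R, ∀ q ∈ cub R, p ≠ q → p ≠ 0 → q ≠ 0 →
      (cnt K R p q : ℝ) ≤ B * (R : ℝ) ^ γ) (ν α : ℝ) (hν : 0 < ν) (hα : 1 / 2 + γ / 4 < α) :
    GWP (dec K) ν α K :=
  asm2_det Pool.Agent.U448.RT.t_SUM t_ALG t_EST' Pool.Agent.U527.RT.t_APR2
    Pool.Agent.U178.RT.t_ODE Pool.Agent.U913.RT.t_RHS Pool.Agent.U136.RT.t_CMP t_UNQ t_CS
    U884RT.t_DET K B γ hK h0 hB hγ hc ν α hν hα

end Pool.Agent.U136.RT
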