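import Pool.Agent.N983.RT.BCD
import Pool.Agent.N983.RT.Asm2

set_option autoImplicit false

/-! Random sets of wave vectors: the trilinear bound for all bounded coefficients of the triads
inside the set (after BCD.lean). -/

namespace Pool.Agent.U136.RT.Lab

open MeasureTheory ProbabilityTheory Pool.Agent.N983.RT

/-- the deterministic part -/
lemma det3 (hC : S_CS) (K : Set Wv) (hK : ∀ k ∈ K, -k ∈ K) (hK0 : (0 : Wv) ∉ K)
    (h : Wv → Wv → Wv → ℝ) (hh1 : ∀ k l m, |h k l m| ≤ 1)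
    (hh : ∀ k l m, h k l m ≠ 0 → k ∈ K ∧ l ∈ K ∧ m ∈ K)
    (s c : ℕ) (i : Fin 3) (M : ℝ) (hM : 0 ≤ M)
    (hcnt : ∀ p ∈ cub (2 ^ (c + 1)), ∀ q ∈ cub (2 ^ (c + 1)), p ≠ q → p ≠ 0 → q ≠ 0 →
      (cnt K (2 ^ (c + 1)) p q : ℝ) ≤ M) (x y z : Wv → ℂ) :
    ‖Tri (fun k l => h k l (-(k + l)) * wgt s c i k l) (2 ^ (c + 1)) x y z‖ ≤
      ((2 : ℝ) ^ (c + 1)) ^ (1 + 2 * s) * (Real.sqrt (2 + M) *
        (N2 (2 ^ (c + 1)) x * N2 (2 ^ (c + 1)) y * N2 (2 ^ (c + 1)) z)) := by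
  classical
  set W : ℝ := ((2 : ℝ) ^ (c + 1)) ^ (1 + 2 * s) with hW
  have hW0 : 0 < W := by positivity
  set a : Wv → Wv → ℝ := fun k l => h k l (-(k + l)) * wgt s c i k l / W with ha
  have e1 : (fun k l => h k l (-(k + l)) * wgt s c i k l) = fun k l => W * a k l := by
    funext k l
    simp only [ha]
    field_simp
  rw [e1, bcd_smul, norm_mul, Complex.norm_real, Real.norm_of_nonneg hW0.le]
  refine mul_le_mul_of_nonneg_left ?_ hW0.le
  have h4 : (4 : ℝ) ^ (c + 1) = ((2 : ℝ) ^ (c + 1)) ^ 2 := by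
    rw [← pow_mul, mul_comm, pow_mul]; norm_num
  have hnn : ∀ k : Wv, 0 ≤ nsq k := fun k => by unfold nsq; positivity
  refine hC K (2 ^ (c + 1)) a M hM hK hK0 ?_ ?_ hcnt x y z
  · intro k l
    simp only [ha]
    rw [abs_div, abs_of_pos hW0, div_le_one hW0, abs_mul]
    have hd : |h k l (-(k + l))| ≤ 1 := hh1 _ _ _
    have hw : |wgt s c i k l| ≤ W := by
      unfold wgt
      split_ifs with hcond
      · obtain ⟨-, hlt⟩ := hcond
        have hl : nsq l ≤ ((2 : ℝ) ^ (c + 1)) ^ 2 := by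
          rw [← h4]
          exact ((le_max_left _ _).trans (le_max_right _ _)).trans hlt.le
        have hkl : nsq (k + l) ≤ ((2 : ℝ) ^ (c + 1)) ^ 2 := by
          rw [← h4]
          exact ((le_max_right _ _).trans (le_max_right _ _)).trans hlt.le
        rw [abs_mul, abs_of_nonneg (pow_nonneg (hnn _) s)]
        calc |(l i : ℝ)| * nsq (k + l) ^ s
            ≤ (2 : ℝ) ^ (c + 1) * (((2 : ℝ) ^ (c + 1)) ^ 2) ^ s :=
              mul_le_mul (bcd_li l i _ (by positivity) hl)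
                (pow_le_pow_left₀ (hnn _) hkl s) (pow_nonneg (hnn _) s) (by positivity)
          _ = W := by
              rw [hW]
              generalize (2 : ℝ) ^ (c + 1) = T
              rw [← pow_mul, ← pow_succ', add_comm]
      · rw [abs_zero]; exact hW0.le
    calc |h k l (-(k + l))| * |wgt s c i k l| ≤ 1 * W := by
          gcongr
      _ = W := one_mul _
  · intro k l hkl
    have hd : h k l (-(k + l)) ≠ 0 := by
      intro h0
      apply hkl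
      simp only [ha, h0, zero_mul, zero_div]
    have hw : wgt s c i k l ≠ 0 := by
      intro h0
      apply hkl
      simp only [ha, h0, mul_zero, zero_div]
    have hd' : k ∈ K ∧ l ∈ K ∧ -(k + l) ∈ K := hh _ _ _ hd
    obtain ⟨h1, h2, h3⟩ := hd'
    refine ⟨h1, h2, ?_, ?_⟩
    · have := hK _ h3
      rwa [neg_neg] at this
    · have hcond : (4 : ℝ) ^ c ≤ max (nsq k) (max (nsq l) (nsq (k + l))) ∧
          max (nsq k) (max (nsq l) (nsq (k + l))) < (4 : ℝ) ^ (c + 1) := by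
        by_contra hh'
        apply hw
        unfold wgt
        rw [if_neg hh']
      have hkl' : nsq (k + l) ≤ ((2 : ℝ) ^ (c + 1)) ^ 2 := by
        rw [← h4]
        exact ((le_max_right _ _).trans (le_max_right _ _)).trans hcond.2.le
      unfold cub
      rw [Fintype.mem_piFinset]
      intro j
      have hj := bcd_li (k + l) j _ (by positivity) hkl'
      rw [Finset.mem_Icc]
      have hj' : |((k + l) j : ℤ)| ≤ (2 : ℤ) ^ (c + 1) := by
        have : ((|((k + l) j : ℤ)| : ℤ) : ℝ) ≤ (((2 : ℤ) ^ (c + 1) : ℤ) : ℝ) := by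
          push_cast
          exact hj
        exact_mod_cast this
      rw [abs_le] at hj'
      push_cast
      exact hj'

theorem bcd3 (hC : S_CS) (hI : S_IND) (hE : S_ESY) (hT : S_TAIL) (hL : S_LAT) (a : ℝ) (h0 : 0 ≤ a)
    (h1 : a < 1) {Ω : Type} [MeasurableSpace Ω] (μ : Measure Ω) [IsProbabilityMeasure μ]
    (Y : Sym2 Wv → Ω → ℝ) (hY : ∀ c, Measurable (Y c)) (hi : iIndepFun Y μ)
    (hp : ∀ k, k ≠ 0 → μ {ω | Y s(k, -k) ω = 1} ≤ ENNReal.ofReal (nsq k ^ (-a / 2))) :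
    ∀ᵐ ω ∂μ, ∀ κ : ℝ, (3 - 3 * a) / 2 < κ → ∀ h : Wv → Wv → Wv → ℝ, (∀ k l m, |h k l m| ≤ 1) →
      (∀ k l m, h k l m ≠ 0 → k ∈ kept Y ω ∧ l ∈ kept Y ω ∧ m ∈ kept Y ω) → TB h κ := by
  obtain ⟨C, hC0, hLC⟩ := hL a h0 h1
  have hsum : (∑' c, μ (bcd_E Y C a c)) ≠ ⊤ := by
    have hle : (∑' c, μ (bcd_E Y C a c)) ≤ ∑' c : ℕ, ENNReal.ofReal ((1 / 2 : ℝ) ^ c) :=
      ENNReal.tsum_le_tsum fun c => bcd_sum hI hE hT a C hC0 hLC μ Y hY hi hp c
    refine ne_top_of_le_ne_top ?_ hle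
    rw [← ENNReal.ofReal_tsum_of_nonneg (fun n => by positivity)
      (summable_geometric_of_lt_one (by norm_num) (by norm_num))]
    exact ENNReal.ofReal_ne_top
  filter_upwards [ae_eventually_notMem hsum] with ω hω κ hκ h hh1 hh
  obtain ⟨c₀, hc₀⟩ := Filter.eventually_atTop.1 hω
  have hκ0 : 0 < κ := by linarith
  set K : Set Wv := kept Y ω with hKdef
  have hKs : ∀ k ∈ K, -k ∈ K := by
    intro k hk
    obtain ⟨h2, h3⟩ := hk
    refine ⟨neg_ne_zero.2 h2, ?_⟩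
    rw [neg_neg, Sym2.eq_swap]
    exact h3
  have hK0 : (0 : Wv) ∉ K := fun h => h.1 rfl
  obtain ⟨D, hD0, hD⟩ := bcd_growth C a hC0 h0 h1 κ hκ
  set D' : ℝ := 2 + ((cub (2 ^ (c₀ + 1))).card : ℝ) with hD'
  have hD'0 : 0 ≤ D' := by positivity
  intro s i
  refine ⟨2 ^ (1 + 2 * s) * Real.sqrt (D + D'), by positivity, fun c x y z => ?_⟩
  have hc1 : (1 : ℝ) ≤ (2 : ℝ) ^ c := one_le_pow₀ (by norm_num)
  -- the bound for the counts
  have hM : ∃ M : ℝ, 0 ≤ M ∧ 2 + M ≤ (D + D') * ((2 : ℝ) ^ c) ^ (2 * κ) ∧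
      ∀ p ∈ cub (2 ^ (c + 1)), ∀ q ∈ cub (2 ^ (c + 1)), p ≠ q → p ≠ 0 → q ≠ 0 →
        (cnt K (2 ^ (c + 1)) p q : ℝ) ≤ M := by
    have hP1 : 1 ≤ ((2 : ℝ) ^ c) ^ (2 * κ) := Real.one_le_rpow hc1 (by linarith)
    by_cases hcc : c₀ ≤ c
    · refine ⟨19 * (bcd_s C a c : ℝ) + 3, by positivity, ?_, ?_⟩
      · refine (hD c).trans ?_
        gcongr
        linarith
      · intro p hpm q hqm hpq hp0 hq0
        have hn := hc₀ c hcc
        by_contra hlt
        apply hn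
        unfold bcd_E
        simp only [Set.mem_iUnion]
        refine ⟨(p, q), ?_, ?_⟩
        · rw [Finset.mem_filter, Finset.mem_product]
          exact ⟨⟨hpm, hqm⟩, hpq, hp0, hq0⟩
        · have hlt' := not_le.1 hlt
          have : 19 * bcd_s C a c + 3 < cnt K (2 ^ (c + 1)) p q := by
            exact_mod_cast hlt'
          exact this.le
    · push Not at hcc
      refine ⟨((cub (2 ^ (c + 1))).card : ℝ), by positivity, ?_, ?_⟩
      · have hm : ((cub (2 ^ (c + 1))).card : ℝ) ≤ ((cub (2 ^ (c₀ + 1))).card : ℝ) := by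
          exact_mod_cast bcd_mono (Nat.pow_le_pow_right (by norm_num) (by omega))
        have : 2 + ((cub (2 ^ (c + 1))).card : ℝ) ≤ D' := by rw [hD']; linarith
        calc 2 + ((cub (2 ^ (c + 1))).card : ℝ) ≤ D' * 1 := by linarith
          _ ≤ (D + D') * ((2 : ℝ) ^ c) ^ (2 * κ) := by
              gcongr
              linarith
      · intro p _ q _ _ _ _
        exact_mod_cast bcd_cnt_le K (2 ^ (c + 1)) p q
  obtain ⟨M, hM0, hM1, hM2⟩ := hM
  refine (det3 hC K hKs hK0 h hh1 hh s c i M hM0 hM2 x y z).trans ?_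
  have hN : 0 ≤ N2 (2 ^ (c + 1)) x * N2 (2 ^ (c + 1)) y * N2 (2 ^ (c + 1)) z := by
    unfold N2; positivity
  rw [← mul_assoc]
  refine mul_le_mul_of_nonneg_right ?_ hN
  have hsq : Real.sqrt (2 + M) ≤ Real.sqrt (D + D') * ((2 : ℝ) ^ c) ^ κ := by
    calc Real.sqrt (2 + M) ≤ Real.sqrt ((D + D') * ((2 : ℝ) ^ c) ^ (2 * κ)) :=
          Real.sqrt_le_sqrt hM1
      _ = Real.sqrt (D + D') * Real.sqrt (((2 : ℝ) ^ c) ^ (2 * κ)) :=
          Real.sqrt_mul (by positivity) _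
      _ = Real.sqrt (D + D') * ((2 : ℝ) ^ c) ^ κ := by
          congr 1
          rw [show 2 * κ = κ + κ by ring, Real.rpow_add (by positivity),
            Real.sqrt_mul_self (by positivity)]
  have hpow : ((2 : ℝ) ^ c) ^ (1 + 2 * (s : ℝ) + κ) = ((2 : ℝ) ^ c) ^ (1 + 2 * s) *
      ((2 : ℝ) ^ c) ^ κ := by
    rw [Real.rpow_add (by positivity)]
    congr 1
    rw [← Real.rpow_natCast ((2 : ℝ) ^ c) (1 + 2 * s)]
    congr 1
    push_cast
    ring
  rw [hpow]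
  calc ((2 : ℝ) ^ (c + 1)) ^ (1 + 2 * s) * Real.sqrt (2 + M)
      ≤ ((2 : ℝ) ^ (c + 1)) ^ (1 + 2 * s) * (Real.sqrt (D + D') * ((2 : ℝ) ^ c) ^ κ) := by
        gcongr
    _ = 2 ^ (1 + 2 * s) * Real.sqrt (D + D') * (((2 : ℝ) ^ c) ^ (1 + 2 * s) *
        ((2 : ℝ) ^ c) ^ κ) := by
        rw [pow_succ 2 c, mul_pow]
        ring

/-- the same for all exponents of the probabilities -/
theorem bcd4 (hC : S_CS) (hI : S_IND) (hE : S_ESY) (hT : S_TAIL) (hL : S_LAT) (a : ℝ) (ha : 0 ≤ a)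
    {Ω : Type} [MeasurableSpace Ω] (μ : Measure Ω) [IsProbabilityMeasure μ]
    (Y : Sym2 Wv → Ω → ℝ) (hY : ∀ c, Measurable (Y c)) (hi : iIndepFun Y μ)
    (hs : ∀ k, k ≠ 0 → μ {ω | Y s(k, -k) ω = 1} ≤ ENNReal.ofReal (nsq k ^ (-a / 2))) :
    ∀ᵐ ω ∂μ, ∀ κ : ℝ, max 0 ((3 - 3 * a) / 2) < κ → ∀ h : Wv → Wv → Wv → ℝ,
      (∀ k l m, |h k l m| ≤ 1) →
      (∀ k l m, h k l m ≠ 0 → k ∈ kept Y ω ∧ l ∈ kept Y ω ∧ m ∈ kept Y ω) → TB h κ := by
  have hone : ∀ k : Wv, k ≠ 0 → 1 ≤ nsq k := by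
    intro k hk
    have : ∃ i, k i ≠ 0 := by
      by_contra h
      push Not at h
      exact hk (funext h)
    obtain ⟨i, hi⟩ := this
    have h1 : (1 : ℝ) ≤ (k i : ℝ) ^ 2 := by
      have : 1 ≤ (k i) ^ 2 := by
        have := sq_nonneg (k i)
        rcases this.lt_or_eq with h | h
        · omega
        · exact absurd (pow_eq_zero_iff (two_ne_zero)|>.1 h.symm) hi
      exact_mod_cast this
    calc (1 : ℝ) ≤ (k i : ℝ) ^ 2 := h1
      _ ≤ nsq k := by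
        unfold nsq
        exact Finset.single_le_sum (f := fun i => (k i : ℝ) ^ 2) (fun i _ => by positivity)
          (Finset.mem_univ i)
  have hb : ∀ n : ℕ, ∀ᵐ ω ∂μ, ∀ κ : ℝ,
      (3 - 3 * min a (1 - 1 / ((n : ℝ) + 1))) / 2 < κ → ∀ h : Wv → Wv → Wv → ℝ,
      (∀ k l m, |h k l m| ≤ 1) →
      (∀ k l m, h k l m ≠ 0 → k ∈ kept Y ω ∧ l ∈ kept Y ω ∧ m ∈ kept Y ω) → TB h κ := by
    intro n
    have hn : 0 < 1 / ((n : ℝ) + 1) := by positivity
    have hn1 : 1 / ((n : ℝ) + 1) ≤ 1 := by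
      rw [div_le_one (by positivity)]
      have : (0 : ℝ) ≤ n := Nat.cast_nonneg n
      linarith
    refine bcd3 hC hI hE hT hL (min a (1 - 1 / ((n : ℝ) + 1)))
      (le_min ha (by linarith)) (lt_of_le_of_lt (min_le_right _ _) (by linarith)) μ Y hY hi
      fun k hk => (hs k hk).trans (ENNReal.ofReal_le_ofReal ?_)
    refine Real.rpow_le_rpow_of_exponent_le (hone k hk) ?_
    have := min_le_left a (1 - 1 / ((n : ℝ) + 1))
    linarith
  rw [← ae_all_iff] at hb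
  filter_upwards [hb] with ω hω
  intro κ hκ
  have h0 : 0 < κ := lt_of_le_of_lt (le_max_left _ _) hκ
  have h1 : (3 - 3 * a) / 2 < κ := lt_of_le_of_lt (le_max_right _ _) hκ
  obtain ⟨n, hn⟩ := exists_nat_one_div_lt (show (0 : ℝ) < κ / 2 by linarith)
  refine hω n κ ?_
  rcases le_total a (1 - 1 / ((n : ℝ) + 1)) with h | h
  · rw [min_eq_left h]; exact h1
  · rw [min_eq_right h]
    linarith

end Pool.Agent.U136.RT.Lab
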