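import Pool.Agent.U136.RT.UNI3
import Pool.Agent.N983.RT.BCS

/-! The trilinear bound for random centred coefficients which depend on a label of the triad
(after BCS.lean by helper402 and BCS2.lean). -/

set_option autoImplicit false

namespace Pool.Agent.U136.RT.Lab

open MeasureTheory ProbabilityTheory Pool.Agent.N983.RT

variable {ι : Type}

/-- the exceptional events -/
def exE {Ω : Type} (lab : Wv → Wv → Wv → ι) (X : ι → Ω → ℝ) (M : ℕ → ℝ) (s : ℕ) (i : Fin 3)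
    (c : ℕ) : Set Ω :=
  {ω | ∃ A ⊆ cub (2 ^ (c + 1)), ∃ B ⊆ cub (2 ^ (c + 1)), ∃ C ⊆ cub (2 ^ (c + 1)),
    A.Nonempty ∧ B.Nonempty ∧ C.Nonempty ∧
      5 * Real.sqrt (M (2 ^ (c + 1))) * Real.sqrt (Real.log (2 * ((2 ^ (c + 1) : ℕ) : ℝ) + 1)) *
          Real.sqrt ((A.card : ℝ) * B.card * C.card) <
        |Box (fun k l => X (lab k l (-(k + l))) ω * bcs_w s c i k l) A B C|}

theorem bcs3 [Countable ι] (hD : S_DIG) {Ω : Type} [MeasurableSpace Ω] (μ : Measure Ω)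
    [IsProbabilityMeasure μ] (lab : Wv → Wv → Wv → ι) (X : ι → Ω → ℝ) (hX : ∀ c, Measurable (X c))
    (hi : iIndepFun X μ) (hp : ∀ c, (∀ᵐ ω ∂μ, |X c ω| ≤ 1) ∧ ∫ ω, X c ω ∂μ = 0)
    (D₀ γ : ℝ) (hD₀ : 0 < D₀) (hγ : 0 ≤ γ)
    (hM : ∀ R : ℕ, 1 ≤ R → ∀ T, (num lab R T : ℝ) ≤ D₀ * (R : ℝ) ^ γ) :
    ∀ᵐ ω ∂μ, ∀ κ : ℝ, γ / 2 < κ → TB (fun k l m => X (lab k l m) ω) κ := by
  obtain ⟨C₀, hC0, hD⟩ := hD
  have hb : ∀ᵐ ω ∂μ, ∀ c, |X c ω| ≤ 1 := ae_all_iff.2 fun c => (hp c).1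
  -- Borel-Cantelli
  have hev : ∀ᵐ ω ∂μ, ∀ (s : ℕ) (i : Fin 3), ∀ᶠ c in Filter.atTop, ω ∉ exE lab X (fun R => D₀ * (R : ℝ) ^ γ) s i c := by
    rw [ae_all_iff]
    intro s
    rw [ae_all_iff]
    intro i
    have hone : ∀ c, μ (exE lab X (fun R => D₀ * (R : ℝ) ^ γ) s i c) ≤ ENNReal.ofReal (100 * (1 / 2 : ℝ) ^ c) := by
      intro c
      refine (uni μ lab X hX hi hp (2 ^ (c + 1)) Nat.one_le_two_pow
        (D₀ * ((2 ^ (c + 1) : ℕ) : ℝ) ^ γ) (by positivity) (hM _ Nat.one_le_two_pow) (bcs_w s c i)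
        (bcs_w_le s c i)).trans ?_
      apply ENNReal.ofReal_le_ofReal
      push_cast
      have h2 : (0 : ℝ) < 2 ^ c := by positivity
      rw [one_div, inv_pow, ← div_eq_mul_inv, pow_succ]
      gcongr
      linarith
    have hsum : (∑' c, μ (exE lab X (fun R => D₀ * (R : ℝ) ^ γ) s i c)) ≠ ⊤ := by
      refine ne_top_of_le_ne_top ?_ (ENNReal.tsum_le_tsum hone)
      rw [← ENNReal.ofReal_tsum_of_nonneg (fun n => by positivity)
        ((summable_geometric_of_lt_one (by norm_num) (by norm_num)).mul_left _)]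
      exact ENNReal.ofReal_ne_top
    exact ae_eventually_notMem hsum
  filter_upwards [hb, hev] with ω hω1 hω2 κ hκ
  have hsg : ∀ k l m : Wv, |X (lab k l m) ω| ≤ 1 := fun k l m => hω1 _
  have hκ0 : 0 < κ := by linarith
  obtain ⟨D, hD0, hDg⟩ := bcs_growth (κ - γ / 2) (by linarith)
  obtain ⟨E, hE⟩ : ∃ E : ℝ, E = 5 * Real.sqrt D₀ * (2 : ℝ) ^ (γ / 2) := ⟨_, rfl⟩
  have hE0 : 0 ≤ E := by rw [hE]; positivity
  have hsM : ∀ c : ℕ, 5 * Real.sqrt (D₀ * (((2 ^ (c + 1) : ℕ)) : ℝ) ^ γ) =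
      E * ((2 : ℝ) ^ c) ^ (γ / 2) := by
    intro c
    have h1 : Real.sqrt ((((2 ^ (c + 1) : ℕ)) : ℝ) ^ γ) =
        (2 : ℝ) ^ (γ / 2) * ((2 : ℝ) ^ c) ^ (γ / 2) := by
      rw [← Real.mul_rpow (by norm_num) (by positivity)]
      rw [Real.sqrt_eq_rpow, ← Real.rpow_mul (by positivity)]
      push_cast
      rw [pow_succ, mul_comm ((2 : ℝ) ^ c) 2]
      congr 1
      ring
    rw [Real.sqrt_mul hD₀.le, h1, hE]
    ring
  intro s i
  obtain ⟨c₀, hc₀⟩ := Filter.eventually_atTop.1 (hω2 s i)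
  obtain ⟨Q, hQ⟩ : ∃ Q : ℝ, Q = ((cub (2 ^ (c₀ + 1))).card : ℝ) ^ 2 := ⟨_, rfl⟩
  have hQ0 : 0 ≤ Q := by rw [hQ]; positivity
  refine ⟨2 ^ (1 + 2 * s) * (E * C₀ * D + Q), by positivity, fun c x y z => ?_⟩
  have hc1 : (1 : ℝ) ≤ (2 : ℝ) ^ c := one_le_pow₀ (by norm_num)
  obtain ⟨P, hP⟩ : ∃ P : ℝ, P = ((2 : ℝ) ^ c) ^ κ := ⟨_, rfl⟩
  have hP1 : 1 ≤ P := by rw [hP]; exact Real.one_le_rpow hc1 hκ0.le
  obtain ⟨W, hW⟩ : ∃ W : ℝ, W = ((2 : ℝ) ^ (c + 1)) ^ (1 + 2 * s) := ⟨_, rfl⟩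
  have hW0 : 0 < W := by rw [hW]; positivity
  have e1 : (fun k l => X (lab k l (-(k + l))) ω * wgt s c i k l) =
      fun k l => W * (X (lab k l (-(k + l))) ω * bcs_w s c i k l) := by
    funext k l
    unfold bcs_w
    rw [← hW]
    field_simp
  rw [e1, bcs_smul, norm_mul, Complex.norm_real, Real.norm_of_nonneg hW0.le]
  have hN : 0 ≤ N2 (2 ^ (c + 1)) x * N2 (2 ^ (c + 1)) y * N2 (2 ^ (c + 1)) z := by
    unfold N2; positivity
  have hsupp : ∀ k l, X (lab k l (-(k + l))) ω * bcs_w s c i k l ≠ 0 →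
      -(k + l) ∈ cub (2 ^ (c + 1)) := by
    intro k l h
    exact bcs_mem (right_ne_zero_of_mul h)
  have hone : ∀ k l, |X (lab k l (-(k + l))) ω * bcs_w s c i k l| ≤ 1 := by
    intro k l
    rw [abs_mul]
    calc |X (lab k l (-(k + l))) ω| * |bcs_w s c i k l| ≤ 1 * 1 :=
          mul_le_mul (hsg _ _ _) (bcs_w_le _ _ _ _ _) (abs_nonneg _) zero_le_one
      _ = 1 := one_mul _
  have hmain : ‖Tri (fun k l => X (lab k l (-(k + l))) ω * bcs_w s c i k l) (2 ^ (c + 1)) x y z‖ ≤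
      (E * C₀ * D + Q) * P *
        (N2 (2 ^ (c + 1)) x * N2 (2 ^ (c + 1)) y * N2 (2 ^ (c + 1)) z) := by
    by_cases hcc : c₀ ≤ c
    · have hn := hc₀ c hcc
      have hbox : ∀ A ⊆ cub (2 ^ (c + 1)), ∀ B ⊆ cub (2 ^ (c + 1)), ∀ C ⊆ cub (2 ^ (c + 1)),
          A.Nonempty → B.Nonempty → C.Nonempty →
          |Box (fun k l => X (lab k l (-(k + l))) ω * bcs_w s c i k l) A B C| ≤
            (5 * Real.sqrt (D₀ * (((2 ^ (c + 1) : ℕ)) : ℝ) ^ γ) *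
              Real.sqrt (Real.log (2 * ((2 ^ (c + 1) : ℕ) : ℝ) + 1))) *
              Real.sqrt ((A.card : ℝ) * B.card * C.card) := by
        intro A hA B hB C hC h1 h2 h3
        by_contra hlt
        exact hn ⟨A, hA, B, hB, C, hC, h1, h2, h3, not_le.1 hlt⟩
      refine (hD (2 ^ (c + 1)) Nat.one_le_two_pow _ _ (by positivity) hsupp hbox x y z).trans ?_
      refine mul_le_mul_of_nonneg_right ?_ hN
      have hlog := bcs_log c
      have hg := hDg c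
      have hPP : P = ((2 : ℝ) ^ c) ^ (κ - γ / 2) * ((2 : ℝ) ^ c) ^ (γ / 2) := by
        rw [hP, ← Real.rpow_add (by positivity)]
        congr 1
        ring
      rw [hsM c]
      calc C₀ * (E * ((2 : ℝ) ^ c) ^ (γ / 2) *
            Real.sqrt (Real.log (2 * ((2 ^ (c + 1) : ℕ) : ℝ) + 1))) *
            (1 + Real.log (2 * ((2 ^ (c + 1) : ℕ) : ℝ) + 1)) ^ 3
          = E * C₀ * ((2 : ℝ) ^ c) ^ (γ / 2) *
            (Real.sqrt (Real.log (2 * ((2 ^ (c + 1) : ℕ) : ℝ) + 1)) *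
            (1 + Real.log (2 * ((2 ^ (c + 1) : ℕ) : ℝ) + 1)) ^ 3) := by ring
        _ ≤ E * C₀ * ((2 : ℝ) ^ c) ^ (γ / 2) * (D * ((2 : ℝ) ^ c) ^ (κ - γ / 2)) := by
            refine mul_le_mul_of_nonneg_left (hlog.trans hg) (by positivity)
        _ = E * C₀ * D * P := by rw [hPP]; ring
        _ ≤ (E * C₀ * D + Q) * P := by
            have : 0 ≤ Q * P := by positivity
            linarith
    · push Not at hcc
      refine (bcs_triv (2 ^ (c + 1)) _ hone hsupp x y z).trans ?_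
      refine mul_le_mul_of_nonneg_right ?_ hN
      have hm : ((cub (2 ^ (c + 1))).card : ℝ) ≤ ((cub (2 ^ (c₀ + 1))).card : ℝ) := by
        exact_mod_cast bcs_mono (Nat.pow_le_pow_right (by norm_num) (by omega))
      calc ((cub (2 ^ (c + 1))).card : ℝ) ^ 2 ≤ Q := by rw [hQ]; gcongr
        _ ≤ Q * P := le_mul_of_one_le_right hQ0 hP1
        _ ≤ (E * C₀ * D + Q) * P := by
            have : 0 ≤ E * C₀ * D * P := by positivity
            linarith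
  have hpow : ((2 : ℝ) ^ c) ^ (1 + 2 * (s : ℝ) + κ) = ((2 : ℝ) ^ c) ^ (1 + 2 * s) * P := by
    rw [Real.rpow_add (by positivity), hP]
    congr 1
    rw [← Real.rpow_natCast ((2 : ℝ) ^ c) (1 + 2 * s)]
    congr 1
    push_cast
    ring
  rw [hpow]
  calc W * ‖Tri (fun k l => X (lab k l (-(k + l))) ω * bcs_w s c i k l) (2 ^ (c + 1)) x y z‖
      ≤ W * ((E * C₀ * D + Q) * P *
        (N2 (2 ^ (c + 1)) x * N2 (2 ^ (c + 1)) y * N2 (2 ^ (c + 1)) z)) :=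
        mul_le_mul_of_nonneg_left hmain hW0.le
    _ = _ := by
        rw [hW, pow_succ 2 c, mul_pow]
        ring

end Pool.Agent.U136.RT.Lab
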