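import Pool.Agent.U136.RT.Final
import Pool.Agent.U136.RT.BCS3
import Pool.Agent.U136.RT.BCD3

set_option autoImplicit false

/-!
Random coefficients which depend on a label of the triad, arbitrary coefficients on the triads
inside a random set of wave vectors.
-/

namespace Pool.Agent.U136.RT.Lab

open MeasureTheory ProbabilityTheory Pool.Agent.N983.RT

/-- `lab` labels the triads: the label does not depend on the order of the three wave vectors and
does not change if all three change their signs, and at most `D R ^ γ` of the triads of wave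
vectors in the cube of size `R` have the same label -/
structure Labels {ι : Type} (lab : Wv → Wv → Wv → ι) (D γ : ℝ) : Prop where
  swap12 : ∀ k l m, lab k l m = lab l k m
  swap23 : ∀ k l m, lab k l m = lab k m l
  neg : ∀ k l m, lab (-k) (-l) (-m) = lab k l m
  num_le : ∀ (R : ℕ), 1 ≤ R → ∀ T, (num lab R T : ℝ) ≤ D * (R : ℝ) ^ γ

theorem Labels.pos {ι : Type} {lab : Wv → Wv → Wv → ι} {D γ : ℝ} (h : Labels lab D γ) : 0 < D := by
  classical
  have h1 := h.num_le 1 le_rfl (lab 0 0 (-(0 + 0)))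
  have h2 : 1 ≤ num lab 1 (lab 0 0 (-(0 + 0))) := by
    unfold num
    rw [Nat.one_le_iff_ne_zero, ← Nat.pos_iff_ne_zero, Finset.card_pos]
    refine ⟨(0, 0), ?_⟩
    have h0 : (0 : Wv) ∈ cub 1 := by
      unfold cub
      rw [Fintype.mem_piFinset]
      intro i
      simp
    simp [h0]
  have h3 : (1 : ℝ) ≤ D * ((1 : ℕ) : ℝ) ^ γ := le_trans (by exact_mod_cast h2) h1
  simp only [Nat.cast_one, Real.one_rpow, mul_one] at h3
  linarith

/-- wave vectors up to sign of length at most `√A` -/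
def Low (A : ℝ) (c : Sym2 Wv) : Prop := ∃ k : Wv, c = s(k, -k) ∧ nsq k ≤ A

open Classical in
/-- the variables of the long wave vectors -/
noncomputable def cutY {Ω : Type} (A : ℝ) (Y : Sym2 Wv → Ω → ℝ) (c : Sym2 Wv) (ω : Ω) : ℝ :=
  if Low A c then 0 else Y c ω

theorem low_iff (A : ℝ) (k : Wv) : Low A s(k, -k) ↔ nsq k ≤ A := by
  constructor
  · rintro ⟨l, h, hl⟩
    rw [Sym2.eq_iff] at h
    rcases h with ⟨h, _⟩ | ⟨h, _⟩
    · rw [h]; exact hl
    · rw [h, asm_nsq_neg]; exact hl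
  · intro h
    exact ⟨k, rfl, h⟩

theorem kept_cutY {Ω : Type} (A : ℝ) (Y : Sym2 Wv → Ω → ℝ) (ω : Ω) (k : Wv) :
    k ∈ kept (cutY A Y) ω ↔ k ∈ kept Y ω ∧ A < nsq k := by
  unfold kept cutY
  simp only [Set.mem_ofPred_eq, low_iff]
  split_ifs with h
  · constructor
    · rintro ⟨_, h0⟩
      norm_num at h0
    · rintro ⟨_, h0⟩
      exact absurd h (not_le.2 h0)
  · constructor
    · intro h0
      exact ⟨h0, not_le.1 h⟩
    · exact fun h0 => h0.1

theorem one_le_nsq {k : Wv} (hk : k ≠ 0) : 1 ≤ nsq k := by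
  have : ∃ i, k i ≠ 0 := by
    by_contra h
    push Not at h
    exact hk (funext h)
  obtain ⟨i, hi⟩ := this
  have h1 : (1 : ℝ) ≤ (k i : ℝ) ^ 2 := by
    have : 1 ≤ (k i) ^ 2 := by
      have := sq_nonneg (k i)
      rcases this.lt_or_eq with h | h
      · omega
      · exact absurd (pow_eq_zero_iff (two_ne_zero)|>.1 h.symm) hi
    exact_mod_cast this
  calc (1 : ℝ) ≤ (k i : ℝ) ^ 2 := h1
    _ ≤ nsq k := by
      unfold nsq
      exact Finset.single_le_sum (f := fun i => (k i : ℝ) ^ 2) (fun i _ => by positivity)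
        (Finset.mem_univ i)

/-- random sets with probabilities at most `C |k| ^ (-a)`: the trilinear bound for bounded
coefficients on the triads of the long wave vectors of the set -/
theorem bcd5 (hC : S_CS) (hI : S_IND) (hE : S_ESY) (hT : S_TAIL) (hL : S_LAT) (a : ℝ)
    {Ω : Type} [MeasurableSpace Ω] (μ : Measure Ω) [IsProbabilityMeasure μ]
    (Y : Sym2 Wv → Ω → ℝ) (hY : ∀ c, Measurable (Y c)) (hi : iIndepFun Y μ) (C : ℝ)
    (hs : ∀ k, k ≠ 0 → μ {ω | Y s(k, -k) ω = 1} ≤ ENNReal.ofReal (C * nsq k ^ (-a / 2))) :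
    ∀ᵐ ω ∂μ, ∀ κ : ℝ, max 0 ((3 - 3 * a) / 2) < κ → ∃ A : ℝ, 0 ≤ A ∧ ∀ h : Wv → Wv → Wv → ℝ,
      (∀ k l m, |h k l m| ≤ 1) →
      (∀ k l m, h k l m ≠ 0 → (k ∈ kept Y ω ∧ A < nsq k) ∧ (l ∈ kept Y ω ∧ A < nsq l) ∧
        (m ∈ kept Y ω ∧ A < nsq m)) → TB h κ := by
  classical
  have hb : ∀ n : ℕ, ∃ A : ℝ, 0 ≤ A ∧ ∀ᵐ ω ∂μ, ∀ κ : ℝ,
      max 0 ((3 - 3 * max 0 (a - 1 / ((n : ℝ) + 1))) / 2) < κ → ∀ h : Wv → Wv → Wv → ℝ,
      (∀ k l m, |h k l m| ≤ 1) →
      (∀ k l m, h k l m ≠ 0 → (k ∈ kept Y ω ∧ A < nsq k) ∧ (l ∈ kept Y ω ∧ A < nsq l) ∧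
        (m ∈ kept Y ω ∧ A < nsq m)) → TB h κ := by
    intro n
    set a' : ℝ := max 0 (a - 1 / ((n : ℝ) + 1)) with ha'
    have hn : 0 < 1 / ((n : ℝ) + 1) := by positivity
    -- the cut
    have hA : ∃ A : ℝ, 0 ≤ A ∧ ∀ k : Wv, k ≠ 0 → A < nsq k →
        μ {ω | Y s(k, -k) ω = 1} ≤ ENNReal.ofReal (nsq k ^ (-a' / 2)) := by
      rcases le_total (a - 1 / ((n : ℝ) + 1)) 0 with h0 | h0
      · refine ⟨0, le_rfl, fun k _ _ => ?_⟩
        have h1 : a' = 0 := by rw [ha', max_eq_left h0]
        rw [h1]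
        simp only [neg_zero, zero_div, Real.rpow_zero, ENNReal.ofReal_one]
        exact prob_le_one
      · have h1 : a' = a - 1 / ((n : ℝ) + 1) := by rw [ha', max_eq_right h0]
        set δ : ℝ := 1 / ((n : ℝ) + 1) / 2 with hδ
        have hδ0 : 0 < δ := by positivity
        refine ⟨(max C 1) ^ (1 / δ), by positivity, fun k hk hAk => (hs k hk).trans ?_⟩
        apply ENNReal.ofReal_le_ofReal
        have hk1 := one_le_nsq hk
        have hM1 : (1 : ℝ) ≤ max C 1 := le_max_right _ _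
        have h2 : max C 1 ≤ nsq k ^ δ := by
          calc max C 1 = ((max C 1) ^ (1 / δ)) ^ δ := by
                rw [← Real.rpow_mul (by linarith), one_div_mul_cancel hδ0.ne', Real.rpow_one]
            _ ≤ nsq k ^ δ := Real.rpow_le_rpow (by positivity) hAk.le hδ0.le
        calc C * nsq k ^ (-a / 2) ≤ nsq k ^ δ * nsq k ^ (-a / 2) := by
              refine mul_le_mul_of_nonneg_right ((le_max_left _ _).trans h2) (by positivity)
          _ = nsq k ^ (-a' / 2) := by
              rw [← Real.rpow_add (by linarith)]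
              congr 1
              rw [h1, hδ]
              ring
    obtain ⟨A, hA0, hA1⟩ := hA
    refine ⟨A, hA0, ?_⟩
    have hY' : ∀ c, Measurable (cutY A Y c) := by
      intro c
      unfold cutY
      by_cases h : Low A c
      · simp only [if_pos h]; exact measurable_const
      · simp only [if_neg h]; exact hY c
    have hi' : iIndepFun (cutY A Y) μ := by
      have h1 := hi.comp (fun c (x : ℝ) => if Low A c then 0 else x) (fun c => by
        by_cases h : Low A c
        · simp only [if_pos h]; exact measurable_const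
        · simp only [if_neg h]; exact measurable_id)
      exact h1
    have hs' : ∀ k, k ≠ 0 → μ {ω | cutY A Y s(k, -k) ω = 1} ≤
        ENNReal.ofReal (nsq k ^ (-a' / 2)) := by
      intro k hk
      by_cases h : Low A s(k, -k)
      · have : {ω | cutY A Y s(k, -k) ω = 1} = ∅ := by
          ext ω
          simp [cutY, if_pos h]
        rw [this]
        simp
      · have : {ω | cutY A Y s(k, -k) ω = 1} = {ω | Y s(k, -k) ω = 1} := by
          ext ω
          simp [cutY, if_neg h]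
        rw [this]
        rw [low_iff] at h
        exact hA1 k hk (not_le.1 h)
    have h5 := bcd4 hC hI hE hT hL a' (le_max_left _ _) μ (cutY A Y) hY' hi' hs'
    filter_upwards [h5] with ω hω
    intro κ hκ h hh1 hh
    refine hω κ hκ h hh1 fun k l m hne => ?_
    have h6 := hh k l m hne
    rw [kept_cutY, kept_cutY, kept_cutY]
    exact h6
  choose A hA0 hA using hb
  rw [← ae_all_iff] at hA
  filter_upwards [hA] with ω hω
  intro κ hκ
  have h0 : 0 < κ := lt_of_le_of_lt (le_max_left _ _) hκ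
  have h1 : (3 - 3 * a) / 2 < κ := lt_of_le_of_lt (le_max_right _ _) hκ
  obtain ⟨n, hn⟩ := exists_nat_one_div_lt (show (0 : ℝ) < (κ - (3 - 3 * a) / 2) / 2 by linarith)
  refine ⟨A n, hA0 n, hω n κ (max_lt h0 ?_)⟩
  have h2 : a - 1 / ((n : ℝ) + 1) ≤ max 0 (a - 1 / ((n : ℝ) + 1)) := le_max_right _ _
  linarith

theorem mn_symm12 (k l m : Wv) : mn k l m = mn l k m := by
  unfold mn
  rw [← min_assoc, min_comm (nsq k) (nsq l), min_assoc]

theorem mn_symm23 (k l m : Wv) : mn k l m = mn k m l := by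
  unfold mn
  rw [min_comm (nsq l) (nsq m)]

theorem mn_neg (k l m : Wv) : mn (-k) (-l) (-m) = mn k l m := by
  unfold mn
  rw [asm_nsq_neg, asm_nsq_neg, asm_nsq_neg]

theorem mx_symm12 (k l m : Wv) : mx k l m = mx l k m := by
  unfold mx
  rw [← max_assoc, max_comm (nsq k) (nsq l), max_assoc]

theorem mx_symm23 (k l m : Wv) : mx k l m = mx k m l := by
  unfold mx
  rw [max_comm (nsq l) (nsq m)]

theorem mx_neg (k l m : Wv) : mx (-k) (-l) (-m) = mx k l m := by
  unfold mx
  rw [asm_nsq_neg, asm_nsq_neg, asm_nsq_neg]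

theorem main {ι : Type} [Countable ι] (lab : Wv → Wv → Wv → ι) (D γ : ℝ) (hγ : 0 ≤ γ)
    (hl : Labels lab D γ)
    {Ω : Type} [MeasurableSpace Ω] (μ : Measure Ω) [IsProbabilityMeasure μ]
    (X : ι → Ω → ℝ) (hX : ∀ c, Measurable (X c)) (hi : iIndepFun X μ)
    (hX1 : ∀ c, ∀ᵐ ω ∂μ, |X c ω| ≤ 1) (B β : ℝ)
    (hm : ∀ k l m : Wv, k ≠ 0 → l ≠ 0 → m ≠ 0 → k + l + m = 0 →
      |∫ ω, X (lab k l m) ω ∂μ| * mn k l m ^ (5 / 4 : ℝ) ≤ B * mx k l m ^ β)
    (Y : Sym2 Wv → Ω → ℝ) (hY : ∀ c, Measurable (Y c)) (hYi : iIndepFun Y μ) (C a : ℝ)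
    (hs : ∀ k, k ≠ 0 → μ {ω | Y s(k, -k) ω = 1} ≤ ENNReal.ofReal (C * nsq k ^ (-a / 2))) :
    ∀ᵐ ω ∂μ, ∀ ν α : ℝ, 0 < ν → 1 / 2 + γ / 4 < α → β < α → 5 / 4 - 3 * a / 4 < α →
      ∀ g : Wv → Wv → Wv → ℝ, Arr g →
        (∀ k l m, (k ∈ kept Y ω ∧ l ∈ kept Y ω ∧ m ∈ kept Y ω) ∨
          mn k l m ^ (5 / 4 : ℝ) ≤ B * mx k l m ^ β ∨ g k l m = X (lab k l m) ω) →
        ∀ S : Set Wv, (∀ k l m, m ∉ S → g k l m = 0) → GWP g ν α S := by
  classical
  have hint : ∀ c, Integrable (X c) μ := fun c =>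
    Integrable.of_mem_Icc (-1) 1 (hX c).aemeasurable (by
      filter_upwards [hX1 c] with ω hω
      exact abs_le.1 hω)
  set e : ι → ℝ := fun c => ∫ ω, X c ω ∂μ with he
  have he1 : ∀ c, |e c| ≤ 1 := by
    intro c
    have h1 : ‖∫ ω, X c ω ∂μ‖ ≤ 1 * μ.real Set.univ := norm_integral_le_of_norm_le_const (by
      filter_upwards [hX1 c] with ω hω
      exact hω)
    simpa using h1
  -- centred coefficients
  have hb := bcs3 Pool.Agent.U898.RT.t_DIG μ lab (fun c ω => (X c ω - e c) / 2)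
    (fun c => ((hX c).sub_const _).div_const _)
    (hi.comp (fun c x => (x - e c) / 2) (fun c => (measurable_id.sub_const _).div_const _))
    (fun c => ⟨by
      filter_upwards [hX1 c] with ω hω
      have h1 := he1 c
      rw [abs_div, abs_two, div_le_one (by norm_num)]
      calc |X c ω - e c| ≤ |X c ω| + |e c| := abs_sub _ _
        _ ≤ 2 := by linarith, by
      rw [integral_div, integral_sub (hint c) (integrable_const _)]
      simp [he]⟩) D γ hl.pos hγ hl.num_le
  -- the random set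
  have hk := bcd5 t_CS Pool.Agent.U261.RT.t_IND U884RT.t_ESY Pool.Agent.U671.RT.t_TAIL t_LAT a
    μ Y hY hYi C hs
  have hB : 0 ≤ B := by
    have h1 := hm ![1, 0, 0] ![1, 0, 0] ![-2, 0, 0] (by
      intro h
      have := congrFun h 0
      simp at this) (by
      intro h
      have := congrFun h 0
      simp at this) (by
      intro h
      have := congrFun h 0
      simp at this) (by
      ext i
      fin_cases i <;> simp)
    have h2 : 0 ≤ |∫ ω, X (lab ![1, 0, 0] ![1, 0, 0] ![-2, 0, 0]) ω ∂μ| *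
        mn ![1, 0, 0] ![1, 0, 0] ![-2, 0, 0] ^ (5 / 4 : ℝ) := by
      refine mul_nonneg (abs_nonneg _) (Real.rpow_nonneg ?_ _)
      unfold mn
      exact le_min (asm_nsq_nonneg _) (le_min (asm_nsq_nonneg _) (asm_nsq_nonneg _))
    have h3 : 0 < mx ![1, 0, 0] ![1, 0, 0] ![-2, 0, 0] ^ β := by
      apply Real.rpow_pos_of_pos
      unfold mx
      apply lt_max_of_lt_left
      simp [nsq, Fin.sum_univ_three]
    by_contra h
    push Not at h
    nlinarith
  have hg2 : Arr (fun k l m => e (lab k l m)) :=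
    { swap12 := fun k l m => by rw [hl.swap12 k l m]
      swap23 := fun k l m => by rw [hl.swap23 k l m]
      neg := fun k l m => by rw [hl.neg k l m]
      le := fun k l m => he1 _ }
  filter_upwards [hb, hk, ae_all_iff.2 hX1] with ω h1 h2 h3
  intro ν α hν hα1 hα2 hα3 g hg hgX S hS
  obtain ⟨b, hb1, hb2⟩ := exists_between (max_lt hα1 (max_lt hα2 hα3))
  have hb3 : 1 / 2 + γ / 4 < b := lt_of_le_of_lt (le_max_left _ _) hb1
  have hb4 : β < b := lt_of_le_of_lt ((le_max_left _ _).trans (le_max_right _ _)) hb1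
  have hb5 : 5 / 4 - 3 * a / 4 < b := lt_of_le_of_lt ((le_max_right _ _).trans (le_max_right _ _)) hb1
  obtain ⟨A, hA0, h2'⟩ := h2 (2 * b - 1) (max_lt (by linarith) (by linarith))
  -- the nonlocal triads
  set B' : ℝ := max B (A ^ (5 / 4 : ℝ)) with hB'
  set β' : ℝ := max β 0 with hβ'
  have hB'0 : 0 ≤ B' := hB.trans (le_max_left _ _)
  set L : Wv → Wv → Wv → Prop := fun k l m => mn k l m ^ (5 / 4 : ℝ) ≤ B' * mx k l m ^ β' with hL
  have hmn0 : ∀ k l m, 0 ≤ mn k l m := fun k l m => by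
    unfold mn
    exact le_min (asm_nsq_nonneg _) (le_min (asm_nsq_nonneg _) (asm_nsq_nonneg _))
  have hmx0 : ∀ k l m, 0 ≤ mx k l m := fun k l m => by
    unfold mx
    exact (asm_nsq_nonneg k).trans (le_max_left _ _)
  have hmnmx : ∀ k l m, mn k l m ≤ mx k l m := fun k l m => by
    unfold mn mx
    exact (min_le_left _ _).trans (le_max_left _ _)
  have hzero : ∀ k l m : Wv, mn k l m = 0 → L k l m := by
    intro k l m h0
    simp only [hL]
    rw [h0, Real.zero_rpow (by norm_num)]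
    exact mul_nonneg hB'0 (Real.rpow_nonneg (hmx0 _ _ _) _)
  have hnz : ∀ k l m : Wv, ¬ L k l m → 1 ≤ mx k l m := by
    intro k l m hn
    have h0 : mn k l m ≠ 0 := fun h => hn (hzero k l m h)
    have hk0 : k ≠ 0 := by
      intro hk0
      apply h0
      unfold mn
      rw [hk0]
      refine le_antisymm ?_ (le_min (asm_nsq_nonneg _) (le_min (asm_nsq_nonneg _)
        (asm_nsq_nonneg _)))
      refine (min_le_left _ _).trans ?_
      simp [nsq]
    unfold mx
    exact (one_le_nsq hk0).trans (le_max_left _ _)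
  have hLB : ∀ k l m : Wv, mn k l m ^ (5 / 4 : ℝ) ≤ B * mx k l m ^ β → L k l m := by
    intro k l m h
    by_contra hn
    have h4 := hnz k l m hn
    apply hn
    simp only [hL]
    calc mn k l m ^ (5 / 4 : ℝ) ≤ B * mx k l m ^ β := h
      _ ≤ B' * mx k l m ^ β' := by
          refine mul_le_mul (le_max_left _ _)
            (Real.rpow_le_rpow_of_exponent_le h4 (le_max_left _ _))
            (Real.rpow_nonneg (hmx0 _ _ _) _) hB'0
  have hLA : ∀ k l m : Wv, mn k l m ≤ A → L k l m := by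
    intro k l m h
    by_contra hn
    have h4 := hnz k l m hn
    apply hn
    simp only [hL]
    calc mn k l m ^ (5 / 4 : ℝ) ≤ A ^ (5 / 4 : ℝ) :=
          Real.rpow_le_rpow (hmn0 _ _ _) h (by norm_num)
      _ ≤ B' * 1 := by rw [mul_one]; exact le_max_right _ _
      _ ≤ B' * mx k l m ^ β' :=
          mul_le_mul_of_nonneg_left (Real.one_le_rpow h4 (le_max_right _ _)) hB'0
  -- the deterministic part on the nonlocal triads
  set r : Wv → Wv → Wv → ℝ := fun k l m =>
    if L k l m then (g k l m - X (lab k l m) ω) / 2 else 0 with hr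
  have hdiff : ∀ k l m, |(g k l m - X (lab k l m) ω) / 2| ≤ 1 := by
    intro k l m
    have e1 := hg.le k l m
    have e2 := h3 (lab k l m)
    rw [abs_div, abs_two, div_le_one (by norm_num)]
    calc |g k l m - X (lab k l m) ω| ≤ |g k l m| + |X (lab k l m) ω| := abs_sub _ _
      _ ≤ 2 := by linarith
  have hr1 : Arr r :=
    { swap12 := fun k l m => by
        simp only [hr, hL]
        rw [mn_symm12 k l m, mx_symm12 k l m, hg.swap12 k l m, hl.swap12 k l m]
      swap23 := fun k l m => by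
        simp only [hr, hL]
        rw [mn_symm23 k l m, mx_symm23 k l m, hg.swap23 k l m, hl.swap23 k l m]
      neg := fun k l m => by
        simp only [hr, hL]
        rw [mn_neg, mx_neg, hg.neg, hl.neg]
      le := fun k l m => by
        simp only [hr]
        split_ifs
        · exact hdiff k l m
        · simp }
  have hHEr : HE r (2 * b - 1) := by
    refine t_PNT _ B' β' (2 * b - 1) hr1 hB'0 (by linarith) ?_ ?_
    · have : β' < b := max_lt hb4 (by linarith)
      linarith
    · intro k l m _ _ _ _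
      by_cases hh : L k l m
      · calc |r k l m| * mn k l m ^ (5 / 4 : ℝ) ≤ 1 * mn k l m ^ (5 / 4 : ℝ) :=
              mul_le_mul_of_nonneg_right (hr1.le k l m) (Real.rpow_nonneg (hmn0 _ _ _) _)
          _ ≤ B' * mx k l m ^ β' := by rw [one_mul]; exact hh
      · simp only [hr, if_neg hh, abs_zero, zero_mul]
        exact mul_nonneg hB'0 (Real.rpow_nonneg (hmx0 _ _ _) _)
  have hHE2 : HE (fun k l m => e (lab k l m)) (2 * b - 1) :=
    t_PNT _ B β (2 * b - 1) hg2 hB (by linarith) (by linarith) hm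
  have hHE1 := asm2_HE_TB t_EST' _ (2 * b - 1) (by linarith) (h1 (2 * b - 1) (by linarith))
  have hHE3 : HE (fun k l m => if L k l m then 0 else (g k l m - X (lab k l m) ω) / 2)
      (2 * b - 1) := by
    refine asm2_HE_TB t_EST' _ (2 * b - 1) (by linarith) (h2' _ ?_ ?_)
    · intro k l m
      split_ifs
      · simp
      · exact hdiff k l m
    · intro k l m hne
      by_cases hh : L k l m
      · exact absurd (if_pos hh) hne
      · rw [if_neg hh] at hne
        have hA' : A < mn k l m := not_le.1 fun h => hh (hLA k l m h)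
        unfold mn at hA'
        rw [lt_min_iff, lt_min_iff] at hA'
        rcases hgX k l m with h | h | h
        · exact ⟨⟨h.1, hA'.1⟩, ⟨h.2.1, hA'.2.1⟩, ⟨h.2.2, hA'.2.2⟩⟩
        · exact absurd (hLB k l m h) hh
        · rw [h] at hne
          simp at hne
  have hHE : HE g (2 * b - 1) := by
    have h4 := asm2_HE_add _ _ 2 (2 * b - 1) hHE3 (asm2_HE_add _ _ 2 (2 * b - 1) hHEr
      (asm2_HE_add _ _ 2 (2 * b - 1) hHE1 hHE2))
    have h5 : (fun k l m => 2 * (if L k l m then 0 else (g k l m - X (lab k l m) ω) / 2) +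
        (2 * r k l m + (2 * ((X (lab k l m) ω - e (lab k l m)) / 2) + e (lab k l m)))) = g := by
      funext k l m
      simp only [hr]
      split_ifs <;> ring
    rw [h5] at h4
    exact h4
  exact crit g ν α (2 * b - 1) hg hν (by linarith) (by linarith) hHE S hS

end Pool.Agent.U136.RT.Lab
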