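import Pool.Agent.U136.RT.Asm3

set_option autoImplicit false

/-! Two labellings of the triads. -/

namespace Pool.Agent.U136.RT.Lab

open Pool.Agent.N983.RT

/-- the triad itself, up to the order of the three wave vectors and a common change of sign -/
def fine (k l m : Wv) : Sym2 (Finset Wv) :=
  s(({k, l, m} : Finset Wv), ({-k, -l, -m} : Finset Wv))

theorem fine_num (R : ℕ) (T : Sym2 (Finset Wv)) : num fine R T ≤ 36 := by
  classical
  set P := (cub R ×ˢ cub R).filter fun p : Wv × Wv => fine p.1 p.2 (-(p.1 + p.2)) = T with hP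
  have hn : num fine R T = P.card := by
    unfold num
    rw [hP]
    congr
  rw [hn]
  rcases P.eq_empty_or_nonempty with h | ⟨p0, h0⟩
  · rw [h]; simp
  · have h0' := (Finset.mem_filter.1 h0).2
    set F : Finset Wv := {p0.1, p0.2, -(p0.1 + p0.2)} with hF
    set G : Finset Wv := {-p0.1, -p0.2, -(-(p0.1 + p0.2))} with hG
    have hFc : F.card ≤ 3 := Finset.card_le_three
    have hGc : G.card ≤ 3 := Finset.card_le_three
    have hU : (F ∪ G).card ≤ 6 := (Finset.card_union_le _ _).trans (by omega)
    have hsub : P ⊆ (F ∪ G) ×ˢ (F ∪ G) := by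
      intro p hp
      have hp' := (Finset.mem_filter.1 hp).2
      have he : fine p.1 p.2 (-(p.1 + p.2)) = fine p0.1 p0.2 (-(p0.1 + p0.2)) := hp'.trans h0'.symm
      unfold fine at he
      rw [Sym2.eq_iff] at he
      have hk : p.1 ∈ ({p.1, p.2, -(p.1 + p.2)} : Finset Wv) := by simp
      have hl : p.2 ∈ ({p.1, p.2, -(p.1 + p.2)} : Finset Wv) := by simp
      rcases he with ⟨h1, _⟩ | ⟨h1, _⟩
      · rw [h1] at hk hl
        exact Finset.mem_product.2 ⟨Finset.mem_union_left _ hk, Finset.mem_union_left _ hl⟩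
      · rw [h1] at hk hl
        exact Finset.mem_product.2 ⟨Finset.mem_union_right _ hk, Finset.mem_union_right _ hl⟩
    calc P.card ≤ ((F ∪ G) ×ˢ (F ∪ G)).card := Finset.card_le_card hsub
      _ = (F ∪ G).card * (F ∪ G).card := Finset.card_product _ _
      _ ≤ 6 * 6 := Nat.mul_le_mul hU hU
      _ = 36 := by norm_num

theorem fine_labels : Labels fine 36 0 where
  swap12 k l m := by
    unfold fine
    rw [Finset.insert_comm k l {m}, Finset.insert_comm (-k) (-l) {-m}]
  swap23 k l m := by
    unfold fine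
    rw [Finset.pair_comm l m, Finset.pair_comm (-l) (-m)]
  neg k l m := by
    unfold fine
    rw [neg_neg, neg_neg, neg_neg, Sym2.eq_swap]
  num_le R _ T := by
    rw [Real.rpow_zero, mul_one]
    exact_mod_cast fine_num R T

theorem iso_labels (h : S_ISO) (γ : ℝ) (hγ : 5 / 3 < γ) : ∃ D, Labels iso D γ := by
  obtain ⟨D, _, hD⟩ := h γ hγ
  refine ⟨D, ?_, ?_, ?_, hD⟩
  · intro k l m
    unfold iso
    exact Multiset.cons_swap _ _ _
  · intro k l m
    unfold iso
    rw [Multiset.pair_comm]
  · intro k l m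
    unfold iso
    simp

end Pool.Agent.U136.RT.Lab
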