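import Pool.Agent.U136.RT.Fine
import Pool.Agent.U692.RT.SPH
import Pool.Agent.U884.RT.CIR
import Pool.Agent.U884.RT.ISO

set_option autoImplicit false

/-! The labelling by the three lengths. Parts: R2, SPH (helper692), CIR, ISO (helper884). -/

namespace Pool.Agent.U136.RT.Lab

open Pool.Agent.N983.RT

theorem iso_labels' (γ : ℝ) (hγ : 5 / 3 < γ) : ∃ D, Labels iso D γ :=
  iso_labels (Pool.Agent.U884.RT.ISO.t_ISO Pool.Agent.U692.RT.t_SPH Pool.Agent.U884.RT.CIR.t_CIR)
    γ hγ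

end Pool.Agent.U136.RT.Lab
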