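import Pool.Agent.N983.RT.Stm2

set_option autoImplicit false

/-! Labels of triads: the number of the triads whose three wave vectors have given lengths. -/

namespace Pool.Agent.U136.RT.Lab

open Pool.Agent.N983.RT

open Classical in
/-- the number of the `(k, l)` in the cube whose triad has the label `T` -/
noncomputable def num {ι : Type} (lab : Wv → Wv → Wv → ι) (R : ℕ) (T : ι) : ℕ :=
  ((cub R ×ˢ cub R).filter fun p => lab p.1 p.2 (-(p.1 + p.2)) = T).card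

/-- the multiset of the squares of the lengths of the three wave vectors -/
def iso (k l m : Wv) : Multiset ℤ := {∑ i, k i ^ 2, ∑ i, l i ^ 2, ∑ i, m i ^ 2}

/-- (R2) sums of two squares -/
def S_R2 : Prop := ∀ ε : ℝ, 0 < ε → ∃ C : ℝ, 0 < C ∧ ∀ R : ℕ, 1 ≤ R → ∀ n : ℤ,
  (((Finset.Icc (-(R : ℤ)) R ×ˢ Finset.Icc (-(R : ℤ)) R).filter
    fun p : ℤ × ℤ => p.1 ^ 2 + p.2 ^ 2 = n).card : ℝ) ≤ C * (R : ℝ) ^ ε

/-- (SPH) spheres -/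
def S_SPH : Prop := ∀ ε : ℝ, 0 < ε → ∃ C : ℝ, 0 < C ∧ ∀ R : ℕ, 1 ≤ R → ∀ n : ℤ,
  (((cub R).filter fun k => ∑ i, k i ^ 2 = n).card : ℝ) ≤ C * (R : ℝ) ^ (1 + ε)

/-- (CIR) circles -/
def S_CIR : Prop := ∃ C : ℝ, 0 < C ∧ ∀ R : ℕ, 1 ≤ R → ∀ k : Wv, k ≠ 0 → ∀ n c : ℤ,
  (((cub R).filter fun l => ∑ i, l i ^ 2 = n ∧ ∑ i, k i * l i = c).card : ℝ) ≤
    C * (R : ℝ) ^ (2 / 3 : ℝ)

/-- (ISO) the number of the triads with given lengths -/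
def S_ISO : Prop := ∀ γ : ℝ, 5 / 3 < γ → ∃ D : ℝ, 0 < D ∧ ∀ R : ℕ, 1 ≤ R → ∀ T : Multiset ℤ,
  (num iso R T : ℝ) ≤ D * (R : ℝ) ^ γ

end Pool.Agent.U136.RT.Lab
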