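import Pool.Agent.U136.RT.HOE3
import Pool.Agent.U136.RT.LabStm

set_option autoImplicit false

/-! The union bound over all boxes for coefficients which depend on a label of the triad (after
helper396's package UNI2 of project RT). -/

namespace Pool.Agent.U136.RT.Lab

open MeasureTheory ProbabilityTheory Pool.Agent.N983.RT

/-- the pairs of the box -/
def prs (A B C : Finset Wv) : Finset (Wv × Wv) := (A ×ˢ B).filter fun p => -(p.1 + p.2) ∈ C

variable {ι : Type}

/-- the label of a pair of wave vectors -/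
def cl (lab : Wv → Wv → Wv → ι) (p : Wv × Wv) : ι := lab p.1 p.2 (-(p.1 + p.2))

open Classical in
/-- the coefficient of a label -/
noncomputable def coef (lab : Wv → Wv → Wv → ι) (w : Wv → Wv → ℝ) (A B C : Finset Wv) (T : ι) :
    ℝ :=
  ∑ p ∈ (prs A B C).filter (fun p => cl lab p = T), w p.1 p.2

open Classical in
theorem box_eq {Ω : Type} (lab : Wv → Wv → Wv → ι) (X : ι → Ω → ℝ) (ω : Ω) (w : Wv → Wv → ℝ)
    (A B C : Finset Wv) :
    Box (fun k l => X (lab k l (-(k + l))) ω * w k l) A B C =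
      ∑ T ∈ (prs A B C).image (cl lab), coef lab w A B C T * X T ω := by
  have h1 : Box (fun k l => X (lab k l (-(k + l))) ω * w k l) A B C =
      ∑ p ∈ prs A B C, X (cl lab p) ω * w p.1 p.2 := by
    unfold Box prs
    rw [Finset.sum_filter, Finset.sum_product]
    rfl
  rw [h1, ← Finset.sum_fiberwise_of_maps_to
    (fun p hp => Finset.mem_image_of_mem (cl lab) hp) (fun p => X (cl lab p) ω * w p.1 p.2)]
  refine Finset.sum_congr rfl fun T _ => ?_
  unfold coef
  rw [Finset.sum_mul]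
  refine Finset.sum_congr rfl fun p hp => ?_
  rw [(Finset.mem_filter.1 hp).2, mul_comm]

open Classical in
theorem fib_card (lab : Wv → Wv → Wv → ι) (R : ℕ) (A B C : Finset Wv) (hA : A ⊆ cub R)
    (hB : B ⊆ cub R) (T : ι) :
    ((prs A B C).filter (fun p => cl lab p = T)).card ≤ num lab R T := by
  unfold num
  refine Finset.card_le_card fun p hp => ?_
  have h1 := Finset.mem_filter.1 hp
  have h2 := Finset.mem_product.1 (Finset.mem_filter.1 h1.1).1
  exact Finset.mem_filter.2 ⟨Finset.mem_product.2 ⟨hA h2.1, hB h2.2⟩, h1.2⟩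

open Classical in
theorem coef_sq (lab : Wv → Wv → Wv → ι) (R : ℕ) (M : ℝ) (hM : ∀ T, (num lab R T : ℝ) ≤ M)
    (w : Wv → Wv → ℝ) (hw : ∀ k l, |w k l| ≤ 1) (A B C : Finset Wv) (hA : A ⊆ cub R)
    (hB : B ⊆ cub R) :
    ∑ T ∈ (prs A B C).image (cl lab), coef lab w A B C T ^ 2 ≤ M * ((prs A B C).card : ℝ) := by
  have h1 : ∀ T ∈ (prs A B C).image (cl lab), coef lab w A B C T ^ 2 ≤
      M * (((prs A B C).filter (fun p => cl lab p = T)).card : ℝ) := by
    intro T _
    set S := (prs A B C).filter (fun p => cl lab p = T) with hS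
    have hc : |coef lab w A B C T| ≤ (S.card : ℝ) := by
      unfold coef
      calc |∑ p ∈ S, w p.1 p.2| ≤ ∑ p ∈ S, |w p.1 p.2| := Finset.abs_sum_le_sum_abs _ _
        _ ≤ ∑ _p ∈ S, (1 : ℝ) := Finset.sum_le_sum fun p _ => hw _ _
        _ = (S.card : ℝ) := by simp
    have h36 : (S.card : ℝ) ≤ M :=
      (by exact_mod_cast fib_card lab R A B C hA hB T : (S.card : ℝ) ≤ num lab R T).trans (hM T)
    have h0 : (0 : ℝ) ≤ S.card := Nat.cast_nonneg _
    calc coef lab w A B C T ^ 2 = |coef lab w A B C T| ^ 2 := (sq_abs _).symm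
      _ ≤ (S.card : ℝ) ^ 2 := pow_le_pow_left₀ (abs_nonneg _) hc 2
      _ ≤ M * (S.card : ℝ) := by nlinarith
  calc ∑ T ∈ (prs A B C).image (cl lab), coef lab w A B C T ^ 2
      ≤ ∑ T ∈ (prs A B C).image (cl lab),
          M * (((prs A B C).filter (fun p => cl lab p = T)).card : ℝ) :=
        Finset.sum_le_sum h1
    _ = M * ((prs A B C).card : ℝ) := by
        rw [← Finset.mul_sum, Finset.card_eq_sum_card_image (cl lab) (prs A B C)]
        push_cast
        rfl

theorem prs_ab (A B C : Finset Wv) : (prs A B C).card ≤ A.card * B.card := by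
  unfold prs
  exact (Finset.card_filter_le _ _).trans (Finset.card_product _ _).le

theorem prs_bc (A B C : Finset Wv) : (prs A B C).card ≤ B.card * C.card := by
  rw [← Finset.card_product]
  refine Finset.card_le_card_of_injOn (fun p => (p.2, -(p.1 + p.2))) ?_ ?_
  · intro p hp
    have hp' := Finset.mem_filter.1 (Finset.mem_coe.1 hp)
    have := Finset.mem_product.1 hp'.1
    exact Finset.mem_coe.2 (Finset.mem_product.2 ⟨this.2, hp'.2⟩)
  · intro p _ q _ h
    simp only [Prod.mk.injEq, neg_inj] at h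
    have h2 := h.2
    rw [h.1] at h2
    exact Prod.ext (add_right_cancel h2) h.1

theorem prs_ac (A B C : Finset Wv) : (prs A B C).card ≤ A.card * C.card := by
  rw [← Finset.card_product]
  refine Finset.card_le_card_of_injOn (fun p => (p.1, -(p.1 + p.2))) ?_ ?_
  · intro p hp
    have hp' := Finset.mem_filter.1 (Finset.mem_coe.1 hp)
    have := Finset.mem_product.1 hp'.1
    exact Finset.mem_coe.2 (Finset.mem_product.2 ⟨this.1, hp'.2⟩)
  · intro p _ q _ h
    simp only [Prod.mk.injEq, neg_inj] at h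
    have h2 := h.2
    rw [h.1] at h2
    exact Prod.ext h.1 (add_left_cancel h2)

/-- the base of the geometric bound -/
noncomputable def yR (R : ℕ) : ℝ := ((2 * (R : ℝ) + 1) ^ 4)⁻¹

theorem yR_pos (R : ℕ) : 0 < yR R := by unfold yR; positivity

theorem yR_exp (R : ℕ) (n : ℕ) :
    Real.exp (-(4 * Real.log (2 * R + 1) * n)) = yR R ^ n := by
  have h : Real.exp (-(4 * Real.log (2 * R + 1) * n)) =
      Real.exp (n * (-(4 * Real.log (2 * R + 1)))) := by ring_nf
  rw [h, Real.exp_nat_mul]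
  congr 1
  unfold yR
  rw [Real.exp_neg]
  congr 1
  rw [show (4 : ℝ) * Real.log (2 * R + 1) = ((4 : ℕ) : ℝ) * Real.log (2 * R + 1) by norm_num,
    Real.exp_nat_mul, Real.exp_log (by positivity)]

/-- one box -/
theorem one_box {Ω : Type} [MeasurableSpace Ω] (μ : Measure Ω)
    [IsProbabilityMeasure μ] (lab : Wv → Wv → Wv → ι) (X : ι → Ω → ℝ) (hm : ∀ c, Measurable (X c))
    (hi : iIndepFun X μ) (hb : ∀ c, (∀ᵐ ω ∂μ, |X c ω| ≤ 1) ∧ ∫ ω, X c ω ∂μ = 0)
    (R : ℕ) (M : ℝ) (hM0 : 0 < M) (hM : ∀ T, (num lab R T : ℝ) ≤ M)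
    (w : Wv → Wv → ℝ) (hw : ∀ k l, |w k l| ≤ 1) (A B C : Finset Wv) (hA : A ⊆ cub R)
    (hB : B ⊆ cub R) :
    μ {ω | 5 * Real.sqrt M * Real.sqrt (Real.log (2 * R + 1)) *
        Real.sqrt ((A.card : ℝ) * B.card * C.card) <
        |Box (fun k l => X (lab k l (-(k + l))) ω * w k l) A B C|} ≤
      ENNReal.ofReal (2 * (yR R ^ A.card * yR R ^ B.card * yR R ^ C.card)) := by
  classical
  have hL : 0 ≤ Real.log (2 * (R : ℝ) + 1) :=
    Real.log_nonneg (by have := Nat.cast_nonneg (α := ℝ) R; linarith)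
  set t : ℝ := 5 * Real.sqrt M * Real.sqrt (Real.log (2 * R + 1)) *
    Real.sqrt ((A.card : ℝ) * B.card * C.card) with ht
  have ht0 : 0 ≤ t := by positivity
  rcases Nat.eq_zero_or_pos (prs A B C).card with hN | hN
  · have hE : prs A B C = ∅ := Finset.card_eq_zero.1 hN
    have : {ω | t < |Box (fun k l => X (lab k l (-(k + l))) ω * w k l) A B C|} = ∅ := by
      ext ω
      simp only [Set.mem_ofPred_eq, Set.mem_empty_iff_false, iff_false, not_lt]
      rw [box_eq, hE]
      simpa using ht0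
    rw [this]
    simp
  · have hNr : (0 : ℝ) < (prs A B C).card := by exact_mod_cast hN
    have hV : (0 : ℝ) < M * ((prs A B C).card : ℝ) := by positivity
    have h := hoe μ X hm hi hb ((prs A B C).image (cl lab)) (coef lab w A B C) t
      (M * ((prs A B C).card : ℝ)) ht0 hV (coef_sq lab R M hM w hw A B C hA hB)
    refine (measure_mono ?_).trans (h.trans ?_)
    · intro ω hω
      simp only [Set.mem_ofPred_eq] at hω ⊢
      rw [box_eq] at hω
      exact hω.le
    · apply ENNReal.ofReal_le_ofReal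
      rw [← pow_add, ← pow_add, ← yR_exp]
      refine mul_le_mul_of_nonneg_left (Real.exp_le_exp.2 ?_) (by norm_num)
      have ht2 : t ^ 2 = 25 * M * Real.log (2 * R + 1) * ((A.card : ℝ) * B.card * C.card) := by
        rw [ht, mul_pow, mul_pow, mul_pow, Real.sq_sqrt hM0.le, Real.sq_sqrt hL,
          Real.sq_sqrt (by positivity)]
        norm_num
      rw [ht2]
      have h1 : ((prs A B C).card : ℝ) ≤ A.card * B.card := by exact_mod_cast prs_ab A B C
      have h2 : ((prs A B C).card : ℝ) ≤ B.card * C.card := by exact_mod_cast prs_bc A B C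
      have h3 : ((prs A B C).card : ℝ) ≤ A.card * C.card := by exact_mod_cast prs_ac A B C
      have ha : (0 : ℝ) ≤ A.card := Nat.cast_nonneg _
      have hb' : (0 : ℝ) ≤ B.card := Nat.cast_nonneg _
      have hc : (0 : ℝ) ≤ C.card := Nat.cast_nonneg _
      have h4 : ((prs A B C).card : ℝ) * (A.card + B.card + C.card) ≤
          3 * ((A.card : ℝ) * B.card * C.card) := by
        have e1 := mul_le_mul_of_nonneg_right h1 hc
        have e2 := mul_le_mul_of_nonneg_right h2 ha
        have e3 := mul_le_mul_of_nonneg_right h3 hb'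
        nlinarith
      have h5 : 4 * Real.log (2 * R + 1) * ((A.card + B.card + C.card : ℕ) : ℝ) ≤
          25 * M * Real.log (2 * R + 1) * ((A.card : ℝ) * B.card * C.card) /
            (2 * (M * ((prs A B C).card : ℝ))) := by
        have h6 : 25 * M * Real.log (2 * R + 1) * ((A.card : ℝ) * B.card * C.card) /
            (2 * (M * ((prs A B C).card : ℝ))) =
            25 * Real.log (2 * R + 1) * ((A.card : ℝ) * B.card * C.card) /
            (2 * ((prs A B C).card : ℝ)) := by
          field_simp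
        rw [h6, le_div_iff₀ (by positivity)]
        push_cast
        have e4 := mul_le_mul_of_nonneg_left h4 hL
        have e5 : 0 ≤ Real.log (2 * R + 1) * ((A.card : ℝ) * B.card * C.card) := by positivity
        nlinarith
      rw [neg_div]
      linarith

theorem cub_card (R : ℕ) : (cub R).card = (2 * R + 1) ^ 3 := by
  unfold cub
  rw [Fintype.card_piFinset]
  simp only [Int.card_Icc, Finset.prod_const, Finset.card_univ, Fintype.card_fin]
  congr 1
  omega

open Classical in
theorem sum_ne (R : ℕ) (hR : 1 ≤ R) :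
    ∑ A ∈ (cub R).powerset.filter (fun A => A.Nonempty), yR R ^ A.card ≤
      2 / (2 * (R : ℝ) + 1) := by
  have h1 : ∑ A ∈ (cub R).powerset, yR R ^ A.card = (yR R + 1) ^ (cub R).card := by
    rw [← Finset.sum_pow_mul_eq_add_pow]
    simp
  have h2 : ∑ A ∈ (cub R).powerset.filter (fun A => A.Nonempty), yR R ^ A.card =
      (yR R + 1) ^ (cub R).card - 1 := by
    have h3 := Finset.sum_filter_add_sum_filter_not (cub R).powerset (fun A => A.Nonempty)
      (fun A => yR R ^ A.card)
    have h4 : (cub R).powerset.filter (fun A => ¬ A.Nonempty) = {∅} := by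
      ext A
      simp only [Finset.mem_filter, Finset.mem_powerset, Finset.not_nonempty_iff_eq_empty,
        Finset.mem_singleton]
      constructor
      · exact fun h => h.2
      · rintro rfl
        exact ⟨Finset.empty_subset _, rfl⟩
    rw [h4, h1] at h3
    simp only [Finset.sum_singleton, Finset.card_empty, pow_zero] at h3
    linarith
  rw [h2]
  have hM : (0 : ℝ) < 2 * (R : ℝ) + 1 := by positivity
  have h5 : ((cub R).card : ℝ) * yR R = 1 / (2 * (R : ℝ) + 1) := by
    rw [cub_card]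
    unfold yR
    push_cast
    field_simp
  have h6 : (yR R + 1) ^ (cub R).card ≤ Real.exp (1 / (2 * (R : ℝ) + 1)) := by
    rw [← h5, Real.exp_nat_mul]
    exact pow_le_pow_left₀ (by have := yR_pos R; linarith) (Real.add_one_le_exp _) _
  have h7 : |Real.exp (1 / (2 * (R : ℝ) + 1)) - 1| ≤ 2 * |1 / (2 * (R : ℝ) + 1)| := by
    apply Real.abs_exp_sub_one_le
    rw [abs_of_pos (by positivity), div_le_one hM]
    have := Nat.cast_nonneg (α := ℝ) R
    linarith
  rw [abs_of_pos (show 0 < 1 / (2 * (R : ℝ) + 1) by positivity)] at h7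
  have h8 := (abs_le.1 h7).2
  have h9 : 2 * (1 / (2 * (R : ℝ) + 1)) = 2 / (2 * (R : ℝ) + 1) := by ring
  linarith

theorem uni {Ω : Type} [MeasurableSpace Ω] (μ : Measure Ω)
    [IsProbabilityMeasure μ] (lab : Wv → Wv → Wv → ι) (X : ι → Ω → ℝ) (hm : ∀ c, Measurable (X c))
    (hi : iIndepFun X μ) (hb : ∀ c, (∀ᵐ ω ∂μ, |X c ω| ≤ 1) ∧ ∫ ω, X c ω ∂μ = 0)
    (R : ℕ) (hR : 1 ≤ R) (M : ℝ) (hM0 : 0 < M) (hM : ∀ T, (num lab R T : ℝ) ≤ M)
    (w : Wv → Wv → ℝ) (hw : ∀ k l, |w k l| ≤ 1) :
    μ {ω | ∃ A ⊆ cub R, ∃ B ⊆ cub R, ∃ C ⊆ cub R, A.Nonempty ∧ B.Nonempty ∧ C.Nonempty ∧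
      5 * Real.sqrt M * Real.sqrt (Real.log (2 * R + 1)) *
        Real.sqrt ((A.card : ℝ) * B.card * C.card) <
        |Box (fun k l => X (lab k l (-(k + l))) ω * w k l) A B C|} ≤
      ENNReal.ofReal (100 / (R : ℝ)) := by
  classical
  set I : Finset (Finset Wv) := (cub R).powerset.filter (fun A => A.Nonempty) with hI
  set E : Finset Wv × Finset Wv × Finset Wv → Set Ω := fun p =>
    {ω | 5 * Real.sqrt M * Real.sqrt (Real.log (2 * R + 1)) *
      Real.sqrt ((p.1.card : ℝ) * p.2.1.card * p.2.2.card) <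
        |Box (fun k l => X (lab k l (-(k + l))) ω * w k l) p.1 p.2.1 p.2.2|} with hE
  have hsub : {ω | ∃ A ⊆ cub R, ∃ B ⊆ cub R, ∃ C ⊆ cub R, A.Nonempty ∧ B.Nonempty ∧ C.Nonempty ∧
      5 * Real.sqrt M * Real.sqrt (Real.log (2 * R + 1)) * Real.sqrt ((A.card : ℝ) * B.card * C.card) <
        |Box (fun k l => X (lab k l (-(k + l))) ω * w k l) A B C|} ⊆
      ⋃ p ∈ I ×ˢ I ×ˢ I, E p := by
    rintro ω ⟨A, hA, B, hB, C, hC, hA', hB', hC', h⟩
    simp only [Set.mem_iUnion]
    refine ⟨(A, B, C), ?_, h⟩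
    simp only [Finset.mem_product, hI, Finset.mem_filter, Finset.mem_powerset]
    exact ⟨⟨hA, hA'⟩, ⟨hB, hB'⟩, ⟨hC, hC'⟩⟩
  refine (measure_mono hsub).trans ((measure_biUnion_finset_le _ _).trans ?_)
  have h1 : ∑ p ∈ I ×ˢ I ×ˢ I, μ (E p) ≤
      ∑ p ∈ I ×ˢ I ×ˢ I, ENNReal.ofReal (2 * (yR R ^ p.1.card * yR R ^ p.2.1.card *
        yR R ^ p.2.2.card)) :=
    Finset.sum_le_sum fun p hp => by
      have hp1 := Finset.mem_product.1 hp
      have hp2 := Finset.mem_product.1 hp1.2
      exact one_box μ lab X hm hi hb R M hM0 hM w hw p.1 p.2.1 p.2.2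
        (Finset.mem_powerset.1 (Finset.mem_filter.1 hp1.1).1)
        (Finset.mem_powerset.1 (Finset.mem_filter.1 hp2.1).1)
  refine h1.trans ?_
  have hy := (yR_pos R).le
  rw [← ENNReal.ofReal_sum_of_nonneg (fun p _ => by positivity)]
  apply ENNReal.ofReal_le_ofReal
  set S : ℝ := ∑ A ∈ I, yR R ^ A.card with hS
  have h2 : ∑ p ∈ I ×ˢ I ×ˢ I, 2 * (yR R ^ p.1.card * yR R ^ p.2.1.card *
      yR R ^ p.2.2.card) = 2 * S ^ 3 := by
    rw [← Finset.mul_sum, Finset.sum_product]
    congr 1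
    have h3 : ∀ A ∈ I, ∑ q ∈ I ×ˢ I, yR R ^ A.card * yR R ^ q.1.card * yR R ^ q.2.card =
        yR R ^ A.card * (S * S) := by
      intro A _
      rw [Finset.sum_product, hS, Finset.sum_mul_sum, Finset.mul_sum]
      refine Finset.sum_congr rfl fun B _ => ?_
      rw [Finset.mul_sum]
      refine Finset.sum_congr rfl fun C _ => ?_
      ring
    rw [Finset.sum_congr rfl h3, ← Finset.sum_mul, ← hS]
    ring
  rw [h2]
  have hS0 : 0 ≤ S := Finset.sum_nonneg fun A _ => by positivity
  have hS1 : S ≤ 2 / (2 * (R : ℝ) + 1) := sum_ne R hR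
  have hRr : (1 : ℝ) ≤ R := by exact_mod_cast hR
  have hS2 : S ≤ 1 / (R : ℝ) := by
    refine hS1.trans ?_
    rw [div_le_div_iff₀ (by positivity) (by positivity)]
    linarith
  have hS3 : S ≤ 1 := hS2.trans (by rw [div_le_one (by linarith)]; exact hRr)
  have h4 : 2 * S ^ 3 ≤ 2 * S := by nlinarith [mul_nonneg hS0 hS0, mul_nonneg (mul_nonneg hS0 hS0) hS0]
  calc 2 * S ^ 3 ≤ 2 * S := h4
    _ ≤ 2 * (1 / (R : ℝ)) := by linarith
    _ ≤ 100 / (R : ℝ) := by
        rw [mul_one_div]
        gcongr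
        norm_num

end Pool.Agent.U136.RT.Lab
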